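import Pool.Agent.H31.BOU.Targets1
import Pool.Agent.H31.BOU.Targets2

/-!
Row NFT: the transitional part.
-/

namespace Pool.Agent.H12.BOU

open Finset Pool.Agent.H31.BOU

lemma nd_neg_le (t : ℝ) : nd (-t) ≤ nd t := by
  have h := round_le (-t) (-(round t))
  unfold nd
  refine h.trans (le_of_eq ?_)
  rw [← abs_neg]
  congr 1
  push_cast
  ring

lemma nd_neg (t : ℝ) : nd (-t) = nd t := by
  refine le_antisymm (nd_neg_le t) ?_
  have := nd_neg_le (-t)
  rwa [neg_neg] at this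

lemma ft_chi_le (hA : T_ABL) (hX : T_CHI) (e j l : ℕ) (x lo hi x1 x2 : ℤ) (t : ℝ)
    (hlh : lo ≤ hi) (he : 1 ≤ e) (hl : l ≤ e * 2 ^ j) :
    ‖ft (Ico x (x + l) ∩ Ico x1 x2) (fun v => (chi j lo hi v : ℂ)) t‖ ≤
      (1 + e) * ((e * 2 ^ j : ℕ) : ℝ) / max 1 (((e * 2 ^ j : ℕ) : ℝ) * nd t) := by
  obtain ⟨u, y, huy, hyl, hI⟩ : ∃ u y : ℤ, u ≤ y ∧ y - u ≤ l ∧
      Ico x (x + l) ∩ Ico x1 x2 = Ico u y := by
    rw [Finset.Ico_inter_Ico]
    rcases le_total (x ⊔ x1) ((x + l) ⊓ x2) with h | h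
    · refine ⟨_, _, h, ?_, rfl⟩
      have h1 : (x + (l : ℤ)) ⊓ x2 ≤ x + l := inf_le_left
      have h2 : x ≤ x ⊔ x1 := le_sup_left
      linarith
    · refine ⟨x, x, le_rfl, by simp, ?_⟩
      rw [Finset.Ico_eq_empty_of_le h, Finset.Ico_self]
  have hc := (hX j lo hi hlh).1
  have hpj : (0 : ℝ) < 2 ^ j := by positivity
  have hab := hA (-t) u y (chi j lo hi) 1 (1 / 2 ^ j) huy zero_le_one (by positivity)
    (fun v _ => by rw [abs_of_nonneg (hc v).1]; exact (hc v).2.1)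
    (fun v _ _ => (hc v).2.2)
  have hft : ft (Ico x (x + l) ∩ Ico x1 x2) (fun v => (chi j lo hi v : ℂ)) t =
      ∑ v ∈ Ico u y, (chi j lo hi v : ℂ) * ee (-t * (v : ℝ)) := by
    rw [hI]
    unfold ft
    exact Finset.sum_congr rfl (fun v _ => by rw [neg_mul])
  rw [← hft, nd_neg] at hab
  set N := ‖ft (Ico x (x + l) ∩ Ico x1 x2) (fun v => (chi j lo hi v : ℂ)) t‖ with hN
  have hN0 : 0 ≤ N := norm_nonneg _
  have hyl' : ((y - u : ℤ) : ℝ) ≤ e * 2 ^ j := by
    have h1 : ((y - u : ℤ) : ℝ) ≤ (l : ℝ) := by exact_mod_cast hyl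
    have h2 : (l : ℝ) ≤ e * 2 ^ j := by exact_mod_cast hl
    exact h1.trans h2
  have he' : (1 : ℝ) ≤ e := by exact_mod_cast he
  have hp : (((e * 2 ^ j : ℕ) : ℝ)) = e * 2 ^ j := by push_cast; ring
  rw [hp]
  have hp0 : (0 : ℝ) < e * 2 ^ j := by positivity
  have hn0 : 0 ≤ nd t := abs_nonneg _
  have h1 : N ≤ e * 2 ^ j := by
    have := hab.1
    linarith
  have h2 : N * (2 * nd t) ≤ 1 + e := by
    refine hab.2.trans ?_
    have : 1 / 2 ^ j * ((y - u : ℤ) : ℝ) ≤ 1 / 2 ^ j * (e * 2 ^ j) :=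
      mul_le_mul_of_nonneg_left hyl' (by positivity)
    have h3 : (1 : ℝ) / 2 ^ j * (e * 2 ^ j) = e := by field_simp
    linarith
  rw [le_div_iff₀ (by positivity)]
  rcases le_total 1 (e * 2 ^ j * nd t) with h | h
  · rw [max_eq_right h]
    nlinarith [mul_le_mul_of_nonneg_left h2 hp0.le]
  · rw [max_eq_left h]
    nlinarith

theorem pf_NFT (hA : T_ABL) (hL : T_LOG) (hB : T_DFB) (hX : T_CHI) : T_NFT := by
  intro e
  refine ⟨(1 + e) * (70 + 4 * Real.sqrt e), by positivity, ?_⟩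
  intro j l x lo hi x1 x2 γ β q σ S hq hσ hlh he hl hS hSb hγ
  have he' : (1 : ℝ) ≤ e := by exact_mod_cast he
  have hq0 : 0 < q := by linarith
  set p : ℕ := e * 2 ^ j with hp
  have hp0 : 0 < p := by positivity
  have hp0' : (0 : ℝ) < (p : ℝ) := by exact_mod_cast hp0
  classical
  set h : ℕ → ℝ := fun b => if b ∈ S then ‖ft (Ico x (x + l)) γ ((b : ℝ) / p)‖ else 0 with hh
  have hh0 : ∀ b, 0 ≤ h b := by
    intro b
    simp only [hh]
    split_ifs
    · exact norm_nonneg _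
    · exact le_rfl
  have hlog := hL p β h (σ / q ^ 7) (Real.sqrt e) (q ^ 16) hp0 (by positivity)
    (Real.sqrt_nonneg _) (one_le_pow₀ hq)
    (by
      intro b _
      refine ⟨hh0 b, ?_⟩
      simp only [hh]
      split_ifs with hb
      · exact hSb b hb
      · positivity)
    (by
      rw [Real.sq_sqrt (by positivity)]
      calc ∑ a ∈ range p, h a ^ 2 ≤ ∑ a ∈ range p, ‖ft (Ico x (x + l)) γ ((a : ℝ) / p)‖ ^ 2 := by
            refine Finset.sum_le_sum (fun b _ => ?_)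
            simp only [hh]
            split_ifs
            · exact le_rfl
            · rw [zero_pow two_ne_zero]; positivity
        _ = p * ∑ v ∈ Ico x (x + l), ‖γ v‖ ^ 2 := hB p l x γ hp0 hl
        _ ≤ p * (1 / 2 ^ j) := mul_le_mul_of_nonneg_left hγ hp0'.le
        _ = e := by
            rw [hp]
            push_cast
            field_simp)
  have hkey : (∑ b ∈ S, ‖ft (Ico x (x + l)) γ ((b : ℝ) / p)‖ *
      ‖ft (Ico x (x + l) ∩ Ico x1 x2) (fun v => (chi j lo hi v : ℂ)) ((b : ℝ) / p - β)‖) / p ≤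
      (1 + e) * ∑ a ∈ range p, h a / max 1 ((p : ℝ) * nd ((a : ℝ) / p - β)) := by
    rw [div_le_iff₀ hp0']
    calc ∑ b ∈ S, ‖ft (Ico x (x + l)) γ ((b : ℝ) / p)‖ *
      ‖ft (Ico x (x + l) ∩ Ico x1 x2) (fun v => (chi j lo hi v : ℂ)) ((b : ℝ) / p - β)‖
        ≤ ∑ b ∈ S, (1 + e) * (h b / max 1 ((p : ℝ) * nd ((b : ℝ) / p - β))) * p := by
          refine Finset.sum_le_sum (fun b hb => ?_)
          have h1 := ft_chi_le hA hX e j l x lo hi x1 x2 ((b : ℝ) / p - β) hlh he hl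
          rw [← hp] at h1
          have h2 : h b = ‖ft (Ico x (x + l)) γ ((b : ℝ) / p)‖ := by simp only [hh, if_pos hb]
          rw [← h2]
          calc h b * _ ≤ h b * ((1 + e) * (p : ℝ) / max 1 ((p : ℝ) * nd ((b : ℝ) / p - β))) :=
                mul_le_mul_of_nonneg_left h1 (hh0 b)
            _ = _ := by ring
      _ ≤ ∑ b ∈ range p, (1 + e) * (h b / max 1 ((p : ℝ) * nd ((b : ℝ) / p - β))) * p := by
          refine Finset.sum_le_sum_of_subset_of_nonneg hS (fun b _ _ => ?_)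
          have := hh0 b
          positivity
      _ = _ := by rw [← Finset.sum_mul, ← Finset.mul_sum]
  refine hkey.trans ?_
  have hsq : Real.sqrt (q ^ 16) = q ^ 8 := by
    rw [show q ^ 16 = (q ^ 8) ^ 2 by ring]
    exact Real.sqrt_sq (by positivity)
  have hlq : Real.log (q ^ 16) ≤ 16 * q := by
    rw [Real.log_pow]
    have := Real.log_le_sub_one_of_pos hq0
    push_cast
    linarith
  have h3 : ∑ a ∈ range p, h a / max 1 ((p : ℝ) * nd ((a : ℝ) / p - β)) ≤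
      (70 + 4 * Real.sqrt e) * (1 + σ) / q ^ 6 := by
    refine hlog.trans ?_
    rw [hsq]
    have hs0 : 0 ≤ Real.sqrt e := Real.sqrt_nonneg _
    have h4 : σ / q ^ 7 * (6 + 4 * Real.log (q ^ 16)) ≤ 70 * σ / q ^ 6 := by
      calc σ / q ^ 7 * (6 + 4 * Real.log (q ^ 16)) ≤ σ / q ^ 7 * (70 * q) := by
            refine mul_le_mul_of_nonneg_left ?_ (by positivity)
            linarith
        _ = 70 * σ / q ^ 6 := by
            field_simp
    have h5 : 4 * Real.sqrt e / q ^ 8 ≤ 4 * Real.sqrt e / q ^ 6 := by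
      refine div_le_div_of_nonneg_left (by positivity) (by positivity) ?_
      exact pow_le_pow_right₀ hq (by norm_num)
    calc σ / q ^ 7 * (6 + 4 * Real.log (q ^ 16)) + 4 * Real.sqrt e / q ^ 8
        ≤ 70 * σ / q ^ 6 + 4 * Real.sqrt e / q ^ 6 := add_le_add h4 h5
      _ = (70 * σ + 4 * Real.sqrt e) / q ^ 6 := by ring
      _ ≤ _ := by
          refine div_le_div_of_nonneg_right ?_ (by positivity)
          nlinarith
  calc (1 + (e : ℝ)) * ∑ a ∈ range p, h a / max 1 ((p : ℝ) * nd ((a : ℝ) / p - β))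
      ≤ (1 + (e : ℝ)) * ((70 + 4 * Real.sqrt e) * (1 + σ) / q ^ 6) :=
        mul_le_mul_of_nonneg_left h3 (by positivity)
    _ = _ := by ring

end Pool.Agent.H12.BOU
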